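import Mathlib
import Pool.Agent.H10.OrbCore

namespace Pool.Agent.Results.MP_0b4a43_pr.Orbit

open MeasureTheory Filter Topology ProbabilityTheory Pool.Agent.H10.OrbCore
open scoped ENNReal Pointwise

/-- The partial products `1, a 0, a 0 * a 1, ...` of a sequence of steps. -/
def prodTo {G : Type*} [Monoid G] (a : ℕ → G) : ℕ → G
  | 0 => 1
  | t + 1 => prodTo a t * a t

/-- The orbit span of `f` under left translation. -/
def orbitSpan {G : Type*} [Group G] (f : G → ℝ) : Submodule ℝ (G → ℝ) :=
  Submodule.span ℝ (Set.range fun γ : G => fun x => f (γ⁻¹ * x))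

lemma prodTo_map {G H : Type*} [Monoid G] [Monoid H] (R : G →* H) (a : ℕ → G) (t : ℕ) :
    R (prodTo a t) = prodTo (fun i => R (a i)) t := by
  induction t with
  | zero => simp [prodTo]
  | succ t ih => simp [prodTo, ih]

lemma prodTo_congr {G : Type*} [Monoid G] (a b : ℕ → G) (t : ℕ) (h : ∀ i < t, a i = b i) :
    prodTo a t = prodTo b t := by
  induction t with
  | zero => rfl
  | succ t ih =>
    simp only [prodTo]
    rw [ih fun i hi => h i (by omega), h t (by omega)]

lemma prodTo_meas {Γ : Type*} [Group Γ] [MeasurableSpace Γ] [MeasurableMul₂ Γ] (t : ℕ) :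
    Measurable fun a : ℕ → Γ => prodTo a t := by
  induction t with
  | zero => exact measurable_const
  | succ t ih => exact ih.mul (measurable_pi_apply t)

lemma walk_core {E : Type*} [NormedAddCommGroup E] [NormedSpace ℝ E] [MeasurableSpace E]
    [BorelSpace E] [FiniteDimensional ℝ E]
    {Γ : Type*} [Group Γ] [MeasurableSpace Γ] [MeasurableMul₂ Γ] [MeasurableInv Γ]
    (ρ : Γ →* (E →L[ℝ] E)) (hρ : ∀ w, Measurable fun g => ρ g w)
    (ν : Measure Γ) [IsProbabilityMeasure ν] (hs : ν.map (fun g => g⁻¹) = ν)
    {Ω : Type*} [MeasurableSpace Ω] (P : Measure Ω) [IsProbabilityMeasure P]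
    (N : ℕ → Ω → Γ) (hN : ∀ i, Measurable (N i)) (hind : iIndepFun N P)
    (hlaw : ∀ i, P.map (N i) = ν) (w0 : E)
    (hconv : ∀ᵐ ω ∂P, ∃ l, Tendsto (fun t => ρ (prodTo (fun i => N i ω) t) w0) atTop (𝓝 l)) :
    ∀ᵐ u ∂ν, ρ u w0 = w0 := by
  classical
  let Y : ℕ → Ω → Γ := fun t ω => prodTo (fun i => N i ω) t
  have hY : ∀ t, Measurable (Y t) := fun t => (prodTo_meas t).comp (measurable_pi_lambda _ hN)
  have hI : ∀ t, IndepFun (Y t) (N t) P := by
    intro t
    have h1 := hind.indepFun_finset (Finset.range t) {t} (by simp) hN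
    let g1 : (Finset.range t → Γ) → Γ := fun z =>
      prodTo (fun i => if h : i ∈ Finset.range t then z ⟨i, h⟩ else 1) t
    let g2 : (({t} : Finset ℕ) → Γ) → Γ := fun z => z ⟨t, Finset.mem_singleton_self t⟩
    have m1 : Measurable g1 := by
      refine (prodTo_meas t).comp (measurable_pi_lambda _ fun i => ?_)
      by_cases h : i ∈ Finset.range t
      · simp only [dif_pos h]
        exact measurable_pi_apply _
      · simp only [dif_neg h]
        exact measurable_const
    have m2 : Measurable g2 := measurable_pi_apply _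
    have h2 := h1.comp m1 m2
    have e1 : (g1 ∘ fun a (i : Finset.range t) => N i a) = Y t := by
      funext ω
      refine prodTo_congr _ _ t fun i hi => ?_
      simp only [dif_pos (Finset.mem_range.mpr hi)]
    rw [e1] at h2
    exact h2
  have hL : ∀ t, P.map (Y t) = cpow ν t := by
    intro t
    induction t with
    | zero =>
      have : Y 0 = fun _ => 1 := rfl
      rw [this, Measure.map_const]
      simp [cpow]
    | succ t ih =>
      have : Y (t + 1) = Y t * N t := rfl
      rw [this, (hI t).map_mul_eq_map_mconv_map (hY t) (hN t), ih, hlaw]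
      rfl
  refine core ρ hρ ν ?_ w0 ?_
  · intro F hF
    conv_rhs => rw [← hs]
    rw [lintegral_map hF measurable_inv]
  · have hm : Measurable fun p : Γ × Γ => T (ρ (p.1 * p.2) w0 - ρ p.1 w0) :=
      T_cont.measurable.comp
        (((hρ w0).comp measurable_mul).sub ((hρ w0).comp measurable_fst))
    have e : ∀ t, ∫⁻ u, phi ρ (cpow ν t) (ρ u w0 - w0) ∂ν
        = ∫⁻ ω, T (ρ (Y (t + 1) ω) w0 - ρ (Y t ω) w0) ∂P := by
      intro t
      have h1 := (indepFun_iff_map_prod_eq_prod_map_map (hY t).aemeasurable
        (hN t).aemeasurable).mp (hI t)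
      rw [hL, hlaw] at h1
      have h2 := lintegral_map (μ := P) hm ((hY t).prodMk (hN t))
      rw [h1, lintegral_prod_symm' _ hm] at h2
      refine Eq.trans ?_ h2
      refine lintegral_congr fun u => lintegral_congr fun g => ?_
      rw [map_sub, map_mul]
      rfl
    simp only [e]
    have h := tendsto_lintegral_of_dominated_convergence (μ := P)
      (F := fun t ω => T (ρ (Y (t + 1) ω) w0 - ρ (Y t ω) w0)) (f := fun _ => 0) (fun _ => 1)
      (fun t => T_cont.measurable.comp
        (((hρ w0).comp (hY (t + 1))).sub ((hρ w0).comp (hY t))))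
      (fun n => Eventually.of_forall fun ω => T_le_one _) (by simp) (by
        filter_upwards [hconv] with ω hω
        obtain ⟨l, hl⟩ := hω
        have h1 := (hl.comp (tendsto_add_atTop_nat 1)).sub hl
        rw [sub_self] at h1
        have h2 := (T_cont.tendsto _).comp h1
        rw [T_zero] at h2
        exact h2)
    simpa using h

/-- Translation acting on the orbit span. -/
def trans {G : Type*} [Group G] (f : G → ℝ) (γ : G) : orbitSpan f →ₗ[ℝ] orbitSpan f where
  toFun v := ⟨fun x => v.1 (γ * x), by
    obtain ⟨v, hv⟩ := v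
    unfold orbitSpan at hv ⊢
    induction hv using Submodule.span_induction with
    | mem v h =>
      obtain ⟨δ, rfl⟩ := h
      refine Submodule.subset_span ⟨γ⁻¹ * δ, ?_⟩
      funext x
      simp [mul_assoc]
    | zero => exact Submodule.zero_mem _
    | add a b _ _ ha hb => exact Submodule.add_mem _ ha hb
    | smul c a _ ha => exact Submodule.smul_mem _ c ha⟩
  map_add' _ _ := rfl
  map_smul' _ _ := rfl

theorem result {G : Type*} [Group G] [TopologicalSpace G] [IsTopologicalGroup G]
    [MeasurableSpace G] [BorelSpace G] (μ : Measure G) [IsProbabilityMeasure μ]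
    (hadapt : ∀ H : Subgroup G, IsClosed (H : Set G) → H ≠ ⊤ → μ H < 1)
    (hsym : ∀ A : Set G, MeasurableSet A → μ A = μ A⁻¹)
    {Ω : Type*} [MeasurableSpace Ω] (P : Measure Ω) [IsProbabilityMeasure P]
    (U : ℕ → Ω → G) (hU : ∀ i, Measurable (U i)) (hind : iIndepFun U P)
    (hlaw : ∀ i, P.map (U i) = μ)
    (f : G → ℝ) (hf : Continuous f) (hnc : ∃ x y, f x ≠ f y)
    (hconv : ∀ x : G, ∀ᵐ ω ∂P, ∃ l : ℝ,
      Tendsto (fun t => f (x * prodTo (fun i => U i ω) t)) atTop (𝓝 l)) :
    ¬ FiniteDimensional ℝ (orbitSpan f) := by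
  intro hfd
  classical
  let b := Module.finBasis ℝ (orbitSpan f)
  let E := Fin (Module.finrank ℝ (orbitSpan f)) → ℝ
  let e : G → E := fun x j => (b j).1 x
  have hcont : ∀ v ∈ orbitSpan f, Continuous v := by
    intro v hv
    unfold orbitSpan at hv
    induction hv using Submodule.span_induction with
    | mem v h =>
      obtain ⟨δ, rfl⟩ := h
      fun_prop
    | zero => exact continuous_const
    | add a b _ _ ha hb => exact ha.add hb
    | smul c a _ ha => exact ha.const_smul c
  have hcv : ∀ v ∈ orbitSpan f, ∀ᵐ ω ∂P, ∃ l : ℝ,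
      Tendsto (fun t => v (prodTo (fun i => U i ω) t)) atTop (𝓝 l) := by
    intro v hv
    unfold orbitSpan at hv
    induction hv using Submodule.span_induction with
    | mem v h =>
      obtain ⟨δ, rfl⟩ := h
      exact hconv δ⁻¹
    | zero => exact Eventually.of_forall fun ω => ⟨0, tendsto_const_nhds⟩
    | add a b _ _ ha hb =>
      filter_upwards [ha, hb] with ω h1 h2
      obtain ⟨l1, h1⟩ := h1
      obtain ⟨l2, h2⟩ := h2
      exact ⟨l1 + l2, h1.add h2⟩
    | smul c a _ ha =>
      filter_upwards [ha] with ω h1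
      obtain ⟨l1, h1⟩ := h1
      exact ⟨c • l1, h1.const_smul c⟩
  have hec : Continuous e := continuous_pi fun j => hcont _ (b j).2
  have hval : ∀ (v : orbitSpan f) (x : G), v.1 x = ∑ k, b.repr v k * e x k := by
    intro v x
    conv_lhs => rw [← b.sum_repr v]
    simp only [Submodule.coe_sum, Submodule.coe_smul, Finset.sum_apply, Pi.smul_apply,
      smul_eq_mul]
    rfl
  have hspan : Submodule.span ℝ (Set.range e) = ⊤ := by
    by_contra hne
    obtain ⟨φ, hφ0, hφ⟩ := Submodule.exists_le_ker_of_lt_top _ (lt_top_iff_ne_top.mpr hne)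
    apply hφ0
    have hz : ∑ j, φ (fun k => if j = k then 1 else 0) • b j = 0 := by
      apply Subtype.ext
      funext x
      have h1 : φ (e x) = 0 := hφ (Submodule.subset_span ⟨x, rfl⟩)
      rw [LinearMap.pi_apply_eq_sum_univ] at h1
      simp only [Submodule.coe_sum, Submodule.coe_smul, Finset.sum_apply, Pi.smul_apply,
        smul_eq_mul, Submodule.coe_zero, Pi.zero_apply]
      exact (Finset.sum_congr rfl fun j _ => mul_comm _ _).trans h1
    have hc := Fintype.linearIndependent_iff.mp b.linearIndependent _ hz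
    refine LinearMap.ext fun y => ?_
    rw [LinearMap.pi_apply_eq_sum_univ]
    simp [hc]
  let A : G → (E →L[ℝ] E) := fun γ => LinearMap.toContinuousLinearMap
    (Matrix.toLin' (Matrix.of fun j k => b.repr (trans f γ (b j)) k))
  have hA : ∀ γ x, A γ (e x) = e (γ * x) := by
    intro γ x
    funext j
    have := hval (trans f γ (b j)) x
    exact this.symm
  have hext : ∀ B C : E →L[ℝ] E, (∀ x, B (e x) = C (e x)) → B = C := by
    intro B C h
    apply ContinuousLinearMap.coe_injective
    exact LinearMap.ext_on_range hspan h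
  have hAm : ∀ γ δ, A (γ * δ) = A γ * A δ := fun γ δ => hext _ _ fun x => by
    show _ = A γ (A δ (e x))
    rw [hA, hA, hA, mul_assoc]
  have hA1 : A 1 = 1 := hext _ _ fun x => by
    rw [hA, one_mul]
    rfl
  have hAc : Continuous A := by
    refine continuous_clm_apply.mpr fun y => ?_
    have hy : y ∈ Submodule.span ℝ (Set.range e) := by
      rw [hspan]
      exact Submodule.mem_top
    induction hy using Submodule.span_induction with
    | mem v h =>
      obtain ⟨x, rfl⟩ := h
      simp only [hA]
      fun_prop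
    | zero => simpa using continuous_const
    | add a b _ _ ha hb =>
      simp only [map_add]
      exact ha.add hb
    | smul c a _ ha =>
      simp only [map_smul]
      exact ha.const_smul c
  let A' : G →* (E →L[ℝ] E) := ⟨⟨A, hA1⟩, hAm⟩
  let R : G →* (E →L[ℝ] E)ˣ := A'.toHomUnits
  have hRc : Continuous R := by
    refine Units.continuous_iff.mpr ⟨hAc, ?_⟩
    have : (fun x => ((R x)⁻¹ : (E →L[ℝ] E)ˣ).val) = fun x => A x⁻¹ := by
      funext x
      rw [← map_inv]
      rfl
    rw [this]
    exact hAc.comp continuous_inv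
  let _m : MeasurableSpace (E →L[ℝ] E)ˣ := borel _
  have _b : BorelSpace (E →L[ℝ] E)ˣ := ⟨rfl⟩
  have _s0 : SecondCountableTopology (E →L[ℝ] E)ᵐᵒᵖ :=
    MulOpposite.opHomeomorph.symm.secondCountableTopology
  have _s : SecondCountableTopology (E →L[ℝ] E)ˣ :=
    Units.isEmbedding_embedProduct.secondCountableTopology
  have hRm : Measurable R := hRc.measurable
  have hρ : ∀ w : E, Measurable fun g : (E →L[ℝ] E)ˣ => Units.coeHom (E →L[ℝ] E) g w := by
    intro w
    exact (Units.continuous_val.clm_apply continuous_const).measurable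
  have _p : IsProbabilityMeasure (μ.map R) := Measure.isProbabilityMeasure_map hRm.aemeasurable
  have hμ : μ.map (fun g => g⁻¹) = μ := by
    ext S hS
    rw [Measure.map_apply measurable_inv hS, hsym S hS]
    rfl
  have hmain := walk_core (Units.coeHom (E →L[ℝ] E)) hρ (μ.map R) (by
      rw [Measure.map_map measurable_inv hRm]
      conv_rhs => rw [← hμ]
      rw [Measure.map_map hRm measurable_inv]
      congr 1
      funext g
      simp) P (fun i ω => R (U i ω)) (fun i => hRm.comp (hU i))
    (hind.comp (fun _ => R) fun _ => hRm) (fun i => by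
      rw [← hlaw i, Measure.map_map hRm (hU i)]
      rfl) (e 1) (by
      have h1 := ae_all_iff.mpr fun j => hcv _ (b j).2
      filter_upwards [h1] with ω hω
      choose l hl using hω
      refine ⟨l, tendsto_pi_nhds.mpr fun j => ?_⟩
      refine (hl j).congr fun t => ?_
      rw [← prodTo_map R]
      have : Units.coeHom (E →L[ℝ] E) (R (prodTo (fun i => U i ω) t)) (e 1)
          = e (prodTo (fun i => U i ω) t * 1) := hA _ _
      rw [this, mul_one])
  have hm2 : ∀ᵐ u ∂μ, e u = e 1 := by
    filter_upwards [ae_of_ae_map hRm.aemeasurable hmain] with u hu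
    have : Units.coeHom (E →L[ℝ] E) (R u) (e 1) = e (u * 1) := hA _ _
    rw [this, mul_one] at hu
    exact hu
  let H : Subgroup G :=
    { carrier := {g | e g = e 1}
      one_mem' := rfl
      mul_mem' := by
        intro g h hg hh
        have h1 : e h = e 1 := hh
        have h2 : e g = e 1 := hg
        show e (g * h) = e 1
        rw [← hA, h1, hA, mul_one, h2]
      inv_mem' := by
        intro g hg
        have h2 : e g = e 1 := hg
        show e g⁻¹ = e 1
        have h3 := hA g⁻¹ g
        rw [h2, hA, mul_one, inv_mul_cancel] at h3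
        exact h3 }
  have hHc : IsClosed (H : Set G) := isClosed_eq hec continuous_const
  have hH : H = ⊤ := by
    by_contra hne
    have h1 := hadapt H hHc hne
    have h2 : μ H = 1 := (prob_compl_eq_zero_iff hHc.measurableSet).mp hm2
    rw [h2] at h1
    exact lt_irrefl _ h1
  have hall : ∀ g, e g = e 1 := fun g => by
    have : g ∈ H := by
      rw [hH]
      exact Subgroup.mem_top g
    exact this
  obtain ⟨x, y, hxy⟩ := hnc
  apply hxy
  have hfm : f ∈ orbitSpan f := Submodule.subset_span ⟨1, by funext x; simp⟩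
  have h1 := hval ⟨f, hfm⟩ x
  have h2 := hval ⟨f, hfm⟩ y
  rw [hall x] at h1
  rw [hall y] at h2
  exact h1.trans h2.symm

end Pool.Agent.Results.MP_0b4a43_pr.Orbit
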